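import Pool.Agent.Helper14.LE.St

/-!
# Project LE, module LGL: the Lagrangian family over a family of curves
-/

set_option autoImplicit false

open Pool.Agent.Helper14.LK Pool.Agent.Helper14.LE
open scoped ContDiff Topology
open MeasureTheory Set Filter

namespace Pool.Agent.Helper67.LE

private theorem riesz {k : ℕ} (L : EE k →L[ℝ] ℝ) (v : EE k) :
    inner ℝ (∑ i, L (EuclideanSpace.basisFun (Fin k) ℝ i) •
      EuclideanSpace.basisFun (Fin k) ℝ i) v = L v := by
  conv_rhs => rw [← (EuclideanSpace.basisFun (Fin k) ℝ).sum_repr' v]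
  rw [sum_inner, map_sum]
  refine Finset.sum_congr rfl fun i _ => ?_
  rw [real_inner_smul_left, map_smul, smul_eq_mul, mul_comm]

/-- the space of the variables `t, c, s` -/
private abbrev QQ (k : ℕ) : Type := (ℝ × EE k) × ℝ

private noncomputable def gg {k : ℕ} (Z : QQ k → ℂ) (q : QQ k) : ℝ :=
  (Z q).im * (fderiv ℝ Z q (0, 1)).re

private noncomputable def PP {k : ℕ} (Z : QQ k → ℂ) (S : ℝ) (q : QQ k) : ℝ :=
  ∫ r in Icc (0 : ℝ) 1, (q.2 + S) * gg Z (q.1, -S + (q.2 + S) * r)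

private noncomputable def inj (k : ℕ) : EE k →L[ℝ] QQ k :=
  (ContinuousLinearMap.inl ℝ (ℝ × EE k) ℝ).comp (ContinuousLinearMap.inr ℝ ℝ (EE k))

private theorem inj_apply {k : ℕ} (v : EE k) : inj k v = ((0, v), 0) := rfl

private noncomputable def lam {k : ℕ} (Z : QQ k → ℂ) (S : ℝ) (q : QQ k) : EE k →L[ℝ] ℝ :=
  (fderiv ℝ (PP Z S) q - (Z q).im • (Complex.reCLM.comp (fderiv ℝ Z q))).comp (inj k)

private noncomputable def hh {k : ℕ} (Z : QQ k → ℂ) (S : ℝ) (q : QQ k) : EE k :=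
  ∑ i, lam Z S q (EuclideanSpace.basisFun (Fin k) ℝ i) • EuclideanSpace.basisFun (Fin k) ℝ i

private theorem inner_hh {k : ℕ} (Z : QQ k → ℂ) (S : ℝ) (q : QQ k) (v : EE k) :
    inner ℝ (hh Z S q) v = lam Z S q v := riesz _ v

/-- the map `(t, x) ↦ ((t, hd x), lt x)` -/
private noncomputable def qq (k : ℕ) : ℝ × EE (k + 1) →L[ℝ] QQ k :=
  ((ContinuousLinearMap.fst ℝ ℝ (EE (k + 1))).prod
    (hd.comp (ContinuousLinearMap.snd ℝ ℝ (EE (k + 1))))).prod
    (lt.comp (ContinuousLinearMap.snd ℝ ℝ (EE (k + 1))))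

private theorem qq_apply {k : ℕ} (t : ℝ) (x : EE (k + 1)) : qq k (t, x) = ((t, hd x), lt x) := rfl

section

variable {k : ℕ} {ζ : ℝ × EE k → ℝ → ℂ} {S : ℝ}

private theorem deriv_eq (hL : LC ζ S) (p : ℝ × EE k) (s : ℝ) :
    deriv (ζ p) s = fderiv ℝ (Function.uncurry ζ) (p, s) (0, 1) := by
  have hd : HasFDerivAt (Function.uncurry ζ) (fderiv ℝ (Function.uncurry ζ) (p, s)) (p, s) :=
    (hL.smooth.differentiable (by simp) (p, s)).hasFDerivAt
  have h2 : HasDerivAt (fun r : ℝ => ((p, r) : QQ k)) (0, 1) s :=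
    (hasDerivAt_const s p).prodMk (hasDerivAt_id s)
  exact (hd.comp_hasDerivAt s h2).deriv

private theorem gg_smooth (hL : LC ζ S) : ContDiff ℝ ∞ (gg (Function.uncurry ζ)) := by
  have h1 : ContDiff ℝ ∞ (fderiv ℝ (Function.uncurry ζ)) := hL.smooth.fderiv_right (by simp)
  have h2 : ContDiff ℝ ∞ (fun q => fderiv ℝ (Function.uncurry ζ) q (0, 1)) :=
    h1.clm_apply contDiff_const
  exact (Complex.imCLM.contDiff.comp hL.smooth).mul (Complex.reCLM.contDiff.comp h2)

private theorem PP_smooth (hPAR : StPAR) (hL : LC ζ S) :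
    ContDiff ℝ ∞ (PP (Function.uncurry ζ) S) := by
  have hg := gg_smooth hL
  have h1 : ContDiff ℝ ∞ (fun y : QQ k × ℝ =>
      ((y.1.1, -S + (y.1.2 + S) * y.2) : QQ k)) := by fun_prop
  have h : ContDiff ℝ ∞ (Function.uncurry (fun (q : QQ k) (r : ℝ) =>
      (q.2 + S) * gg (Function.uncurry ζ) (q.1, -S + (q.2 + S) * r))) := by
    have h2 : ContDiff ℝ ∞ (fun y : QQ k × ℝ => y.1.2 + S) := by fun_prop
    exact h2.mul (hg.comp h1)
  exact (hPAR ℝ (QQ k) ℝ volume (Icc 0 1) isCompact_Icc _ h).1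

private theorem PP_eq (Z : QQ k → ℂ) (p : ℝ × EE k) (s : ℝ) :
    PP Z S (p, s) = ∫ r in (-S)..s, gg Z (p, r) := by
  unfold PP
  rw [integral_Icc_eq_integral_Ioc, ← intervalIntegral.integral_of_le zero_le_one,
    intervalIntegral.integral_const_mul]
  have h := intervalIntegral.mul_integral_comp_add_mul (a := 0) (b := 1)
    (f := fun r => gg Z (p, r)) (s + S) (-S)
  refine h.trans ?_
  congr 1 <;> ring

private theorem dPP (hPAR : StPAR) (hL : LC ζ S) (p : ℝ × EE k) (s : ℝ) :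
    fderiv ℝ (PP (Function.uncurry ζ) S) (p, s) (0, 1) = gg (Function.uncurry ζ) (p, s) := by
  have hg := gg_smooth hL
  have hc : Continuous (fun r : ℝ => gg (Function.uncurry ζ) (p, r)) :=
    hg.continuous.comp (by fun_prop)
  have h1 : HasDerivAt (fun r : ℝ => PP (Function.uncurry ζ) S (p, r))
      (fderiv ℝ (PP (Function.uncurry ζ) S) (p, s) (0, 1)) s := by
    have hd : HasFDerivAt (PP (Function.uncurry ζ) S)
        (fderiv ℝ (PP (Function.uncurry ζ) S) (p, s)) (p, s) :=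
      ((PP_smooth hPAR hL).differentiable (by simp) (p, s)).hasFDerivAt
    have h2 : HasDerivAt (fun r : ℝ => ((p, r) : QQ k)) (0, 1) s :=
      (hasDerivAt_const s p).prodMk (hasDerivAt_id s)
    exact hd.comp_hasDerivAt s h2
  have h3 : HasDerivAt (fun r : ℝ => PP (Function.uncurry ζ) S (p, r))
      (gg (Function.uncurry ζ) (p, s)) s := by
    have h4 := intervalIntegral.integral_hasDerivAt_right
      (hc.intervalIntegrable (-S) s) (hc.stronglyMeasurableAtFilter _ _) hc.continuousAt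
    refine h4.congr_of_eventuallyEq (Eventually.of_forall fun r => ?_)
    exact PP_eq _ p r
  exact h1.unique h3

/-- far away -/
private theorem Z_far (hL : LC ζ S) {p : ℝ × EE k} {s : ℝ} (h : S ≤ ‖p‖ ∨ S ≤ |s|) :
    ζ p s = s := by
  rcases h with h | h
  · exact hL.farp p s h
  · exact hL.far p s h

private theorem gg_far (hL : LC ζ S) {p : ℝ × EE k} {s : ℝ} (h : S ≤ ‖p‖ ∨ S ≤ |s|) :
    gg (Function.uncurry ζ) (p, s) = 0 := by
  unfold gg
  have : Function.uncurry ζ (p, s) = (s : ℂ) := Z_far hL h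
  rw [this]
  simp

private theorem PP_far (hL : LC ζ S) {p : ℝ × EE k} {s : ℝ} (h : S ≤ ‖p‖ ∨ S ≤ |s|) :
    PP (Function.uncurry ζ) S (p, s) = 0 := by
  have hS := hL.pos
  rw [PP_eq]
  rcases h with h | h
  · rw [intervalIntegral.integral_congr (g := fun _ => (0 : ℝ)) (fun r _ => gg_far hL (Or.inl h))]
    simp
  · have hg := gg_smooth hL
    have hc : Continuous (fun r : ℝ => gg (Function.uncurry ζ) (p, r)) :=
      hg.continuous.comp (by fun_prop)
    rcases le_abs.1 h with h1 | h1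
    · rw [← intervalIntegral.integral_add_adjacent_intervals
        (hc.intervalIntegrable (-S) S) (hc.intervalIntegrable S s)]
      have e1 : ∫ r in (-S)..S, gg (Function.uncurry ζ) (p, r) = 0 := by
        rw [intervalIntegral.integral_of_le (by linarith), ← integral_Icc_eq_integral_Ioc]
        rw [← hL.area p]
        refine setIntegral_congr_fun measurableSet_Icc fun r _ => ?_
        show gg (Function.uncurry ζ) (p, r) = _
        rw [deriv_eq hL]; rfl
      have e2 : ∫ r in S..s, gg (Function.uncurry ζ) (p, r) = 0 := by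
        rw [intervalIntegral.integral_congr (g := fun _ => (0 : ℝ)) (fun r hr => ?_)]
        · simp
        · rw [uIcc_of_le h1] at hr
          exact gg_far hL (Or.inr (hr.1.trans (le_abs_self r)))
      rw [e1, e2, add_zero]
    · rw [intervalIntegral.integral_congr (g := fun _ => (0 : ℝ)) (fun r hr => ?_)]
      · simp
      · rw [uIcc_of_ge (by linarith)] at hr
        refine gg_far hL (Or.inr (le_trans ?_ (neg_le_abs r)))
        linarith [hr.2]

private theorem lam_far (hL : LC ζ S) {p : ℝ × EE k} {s : ℝ} (h : S < ‖p‖ ∨ S < |s|) :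
    lam (Function.uncurry ζ) S (p, s) = 0 := by
  have h1 : Function.uncurry ζ (p, s) = (s : ℂ) :=
    Z_far hL (h.imp le_of_lt le_of_lt)
  have ho : IsOpen {q : QQ k | S < ‖q.1‖ ∨ S < |q.2|} := by
    exact (isOpen_lt continuous_const (continuous_fst.norm)).union
      (isOpen_lt continuous_const (continuous_snd.abs))
  have h2 : PP (Function.uncurry ζ) S =ᶠ[𝓝 (p, s)] fun _ => 0 := by
    filter_upwards [ho.mem_nhds (show ((p, s) : QQ k) ∈ _ from h)] with q hq
    exact PP_far hL (hq.imp le_of_lt le_of_lt)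
  unfold lam
  rw [h2.fderiv_eq, h1]
  simp

private theorem hh_far (hL : LC ζ S) {p : ℝ × EE k} {s : ℝ} (h : S < ‖p‖ ∨ S < |s|) :
    hh (Function.uncurry ζ) S (p, s) = 0 := by
  unfold hh
  rw [lam_far hL h]
  simp

private theorem lam_smooth (hPAR : StPAR) (hL : LC ζ S) :
    ContDiff ℝ ∞ (lam (Function.uncurry ζ) S) := by
  have h1 : ContDiff ℝ ∞ (fderiv ℝ (PP (Function.uncurry ζ) S)) :=
    (PP_smooth hPAR hL).fderiv_right (by simp)
  have h2 : ContDiff ℝ ∞ (fderiv ℝ (Function.uncurry ζ)) := hL.smooth.fderiv_right (by simp)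
  have h3 : ContDiff ℝ ∞ (fun q => (Function.uncurry ζ q).im) :=
    Complex.imCLM.contDiff.comp hL.smooth
  have h4 : ContDiff ℝ ∞ (fun q => Complex.reCLM.comp (fderiv ℝ (Function.uncurry ζ) q)) :=
    contDiff_const.clm_comp h2
  exact (h1.sub (h3.smul h4)).clm_comp contDiff_const

private theorem hh_smooth (hPAR : StPAR) (hL : LC ζ S) :
    ContDiff ℝ ∞ (hh (Function.uncurry ζ) S) := by
  unfold hh
  refine ContDiff.sum fun i _ => ?_
  exact ((lam_smooth hPAR hL).clm_apply contDiff_const).smul contDiff_const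

end

/-- the Lagrangian family -/
private noncomputable def io {k : ℕ} (Z : QQ k → ℂ) (S : ℝ) (t : ℝ) (x : EE (k + 1)) :
    WW (k + 1) :=
  pl (hd x) (hh Z S (qq k (t, x))) (Z (qq k (t, x)))

section

variable {k : ℕ} {ζ : ℝ × EE k → ℝ → ℂ} {S : ℝ}

private theorem io_smooth (hPAR : StPAR) (hL : LC ζ S) :
    ContDiff ℝ ∞ (Function.uncurry (io (Function.uncurry ζ) S)) := by
  have hZ : ContDiff ℝ ∞ (fun y : ℝ × EE (k + 1) => Function.uncurry ζ (qq k y)) :=
    hL.smooth.comp (qq k).contDiff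
  have hH : ContDiff ℝ ∞ (fun y : ℝ × EE (k + 1) => hh (Function.uncurry ζ) S (qq k y)) :=
    (hh_smooth hPAR hL).comp (qq k).contDiff
  have h1 : ContDiff ℝ ∞ (fun y : ℝ × EE (k + 1) => hd y.2) :=
    hd.contDiff.comp contDiff_snd
  have h2 : ContDiff ℝ ∞ (fun y : ℝ × EE (k + 1) => (Function.uncurry ζ (qq k y)).re) :=
    Complex.reCLM.contDiff.comp hZ
  have h3 : ContDiff ℝ ∞ (fun y : ℝ × EE (k + 1) => (Function.uncurry ζ (qq k y)).im) :=
    Complex.imCLM.contDiff.comp hZ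
  exact (mk.contDiff.comp (h1.prodMk h2)).prodMk (mk.contDiff.comp (hH.prodMk h3))

private theorem io_smooth' (hPAR : StPAR) (hL : LC ζ S) (t : ℝ) :
    ContDiff ℝ ∞ (io (Function.uncurry ζ) S t) :=
  (io_smooth hPAR hL).comp (contDiff_const.prodMk contDiff_id)

private theorem q_deriv (k : ℕ) (t : ℝ) (x : EE (k + 1)) :
    HasFDerivAt (fun y : EE (k + 1) => qq k (t, y))
      ((qq k).comp (ContinuousLinearMap.inr ℝ ℝ (EE (k + 1)))) x := by
  have h1 : HasFDerivAt (fun y : EE (k + 1) => ((t, y) : ℝ × EE (k + 1)))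
      (ContinuousLinearMap.inr ℝ ℝ (EE (k + 1))) x := hasFDerivAt_prodMk_right t x
  exact (qq k).hasFDerivAt.comp x h1

private theorem split (k : ℕ) (A : QQ k →L[ℝ] ℝ) (u : EE (k + 1)) :
    A ((0, hd u), lt u) = A (inj k (hd u)) + lt u * A (0, 1) := by
  have : (((0, hd u), lt u) : QQ k) = inj k (hd u) + lt u • ((0, 1) : QQ k) := by
    rw [inj_apply]; simp
  rw [this, map_add, map_smul, smul_eq_mul]

/-- the fundamental identity -/
private theorem form_eq (hPAR : StPAR) (hL : LC ζ S) (t : ℝ) (x u : EE (k + 1)) :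
    inner ℝ (io (Function.uncurry ζ) S t x).2 (fderiv ℝ (io (Function.uncurry ζ) S t) x u).1 =
      fderiv ℝ (fun y => PP (Function.uncurry ζ) S (qq k (t, y))) x u := by
  set Z := Function.uncurry ζ with hZ
  have hq := q_deriv k t x
  have hZ0 : HasFDerivAt Z (fderiv ℝ Z (qq k (t, x))) (qq k (t, x)) :=
    (hL.smooth.differentiable (by simp) (qq k (t, x))).hasFDerivAt
  have hZd : HasFDerivAt (fun y => Z (qq k (t, y)))
      ((fderiv ℝ Z (qq k (t, x))).comp ((qq k).comp (ContinuousLinearMap.inr ℝ ℝ (EE (k + 1))))) x :=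
    HasFDerivAt.comp (g := Z) (f := fun y : EE (k + 1) => qq k (t, y)) x hZ0 hq
  have hP0 : HasFDerivAt (PP Z S) (fderiv ℝ (PP Z S) (qq k (t, x))) (qq k (t, x)) :=
    ((PP_smooth hPAR hL).differentiable (by simp) (qq k (t, x))).hasFDerivAt
  have hPd : HasFDerivAt (fun y => PP Z S (qq k (t, y)))
      ((fderiv ℝ (PP Z S) (qq k (t, x))).comp
        ((qq k).comp (ContinuousLinearMap.inr ℝ ℝ (EE (k + 1))))) x :=
    HasFDerivAt.comp (g := PP Z S) (f := fun y : EE (k + 1) => qq k (t, y)) x hP0 hq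
  have hfst : HasFDerivAt (fun y => (io Z S t y).1)
      (mk.comp (hd.prod (Complex.reCLM.comp ((fderiv ℝ Z (qq k (t, x))).comp
        ((qq k).comp (ContinuousLinearMap.inr ℝ ℝ (EE (k + 1)))))))) x := by
    have a : HasFDerivAt (fun y : EE (k + 1) => (hd y, (Z (qq k (t, y))).re)) _ x :=
      hd.hasFDerivAt.prodMk (Complex.reCLM.hasFDerivAt.comp x hZd)
    exact mk.hasFDerivAt.comp x a
  have hfst2 : HasFDerivAt (fun y => (io Z S t y).1)
      ((ContinuousLinearMap.fst ℝ (EE (k + 1)) (EE (k + 1))).comp (fderiv ℝ (io Z S t) x)) x :=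
    (ContinuousLinearMap.fst ℝ (EE (k + 1)) (EE (k + 1))).hasFDerivAt.comp x
      ((io_smooth' hPAR hL t).differentiable (by simp) x).hasFDerivAt
  have e1 := congrArg (fun A => A u) (hfst.unique hfst2)
  simp only [ContinuousLinearMap.comp_apply, ContinuousLinearMap.coe_fst',
    ContinuousLinearMap.prod_apply] at e1
  rw [← e1, hPd.fderiv, inner_eq, hd_mk, lt_mk]
  have e2 : (qq k) ((ContinuousLinearMap.inr ℝ ℝ (EE (k + 1))) u) = ((0, hd u), lt u) := rfl
  rw [ContinuousLinearMap.comp_apply, ContinuousLinearMap.comp_apply, e2]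
  have e3 : hd (io Z S t x).2 = hh Z S (qq k (t, x)) :=
    dd_pl (hd x) (hh Z S (qq k (t, x))) (Z (qq k (t, x)))
  have e4 : lt (io Z S t x).2 = (Z (qq k (t, x))).im := by
    have := zz_im (io Z S t x)
    rw [← this]
    exact congrArg Complex.im (zz_pl (hd x) (hh Z S (qq k (t, x))) (Z (qq k (t, x))))
  rw [e3, e4, inner_hh]
  unfold lam
  have s1 := split k (fderiv ℝ (PP Z S) (qq k (t, x))) u
  have s2 := split k (Complex.reCLM.comp (fderiv ℝ Z (qq k (t, x)))) u
  have s3 : fderiv ℝ (PP Z S) (qq k (t, x)) (0, 1) =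
      (Z (qq k (t, x))).im * (fderiv ℝ Z (qq k (t, x)) (0, 1)).re :=
    dPP hPAR hL (t, hd x) (lt x)
  simp only [ContinuousLinearMap.comp_apply, Complex.reCLM_apply] at s2
  rw [s1, s3]
  simp only [ContinuousLinearMap.comp_apply, _root_.sub_apply,
    _root_.smul_apply, Complex.reCLM_apply, smul_eq_mul]
  rw [s2]
  ring

/-- a primitive of the Liouville form gives isotropy -/
private theorem isotropic_of_prim {n : ℕ} {f : EE n → WW n} {Q : EE n → ℝ} (hf : ContDiff ℝ ∞ f)
    (hQ : ContDiff ℝ ∞ Q) (h : ∀ x u, inner ℝ (f x).2 (fderiv ℝ f x u).1 = fderiv ℝ Q x u) :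
    Isotropic f := by
  intro x u v
  have key : ∀ u v : EE n, inner ℝ (fderiv ℝ f x v).2 (fderiv ℝ f x u).1 +
      inner ℝ (f x).2 (fderiv ℝ (fderiv ℝ f) x v u).1 = fderiv ℝ (fderiv ℝ Q) x v u := by
    intro u v
    have hline : HasDerivAt (fun r : ℝ => x + r • v) v 0 := by
      simpa using ((hasDerivAt_id (0 : ℝ)).smul_const v).const_add x
    have hx : x + (0 : ℝ) • v = x := by simp
    have a1 : HasDerivAt (fun r : ℝ => f (x + r • v)) (fderiv ℝ f x v) 0 := by
      have := (hf.differentiable (by simp) (x + (0 : ℝ) • v)).hasFDerivAt.comp_hasDerivAt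
        (0 : ℝ) hline
      rwa [hx] at this
    have a2 : HasDerivAt (fun r : ℝ => fderiv ℝ f (x + r • v)) (fderiv ℝ (fderiv ℝ f) x v) 0 := by
      have h1 : ContDiff ℝ ∞ (fderiv ℝ f) := hf.fderiv_right (by simp)
      have := (h1.differentiable (by simp) (x + (0 : ℝ) • v)).hasFDerivAt.comp_hasDerivAt
        (0 : ℝ) hline
      rwa [hx] at this
    have a3 : HasDerivAt (fun r : ℝ => fderiv ℝ Q (x + r • v)) (fderiv ℝ (fderiv ℝ Q) x v) 0 := by
      have h1 : ContDiff ℝ ∞ (fderiv ℝ Q) := hQ.fderiv_right (by simp)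
      have := (h1.differentiable (by simp) (x + (0 : ℝ) • v)).hasFDerivAt.comp_hasDerivAt
        (0 : ℝ) hline
      rwa [hx] at this
    have b1 : HasDerivAt (fun r : ℝ => (f (x + r • v)).2) (fderiv ℝ f x v).2 0 :=
      (ContinuousLinearMap.snd ℝ (EE n) (EE n)).hasFDerivAt.comp_hasDerivAt (0 : ℝ) a1
    have b2 : HasDerivAt (fun r : ℝ => (fderiv ℝ f (x + r • v) u).1)
        (fderiv ℝ (fderiv ℝ f) x v u).1 0 := by
      have c1 : HasDerivAt (fun r : ℝ => fderiv ℝ f (x + r • v) u)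
          (fderiv ℝ (fderiv ℝ f) x v u) 0 :=
        (ContinuousLinearMap.apply ℝ (WW n) u).hasFDerivAt.comp_hasDerivAt (0 : ℝ) a2
      exact (ContinuousLinearMap.fst ℝ (EE n) (EE n)).hasFDerivAt.comp_hasDerivAt (0 : ℝ) c1
    have b3 : HasDerivAt (fun r : ℝ => fderiv ℝ Q (x + r • v) u)
        (fderiv ℝ (fderiv ℝ Q) x v u) 0 :=
      (ContinuousLinearMap.apply ℝ ℝ u).hasFDerivAt.comp_hasDerivAt (0 : ℝ) a3
    have b4 := b1.inner ℝ b2
    have b5 : (fun r : ℝ => inner ℝ (f (x + r • v)).2 (fderiv ℝ f (x + r • v) u).1) =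
        fun r : ℝ => fderiv ℝ Q (x + r • v) u := by
      funext r; exact h _ _
    rw [b5] at b4
    have b6 := b4.unique b3
    rw [hx] at b6
    rw [← b6]; ring
  have h2 : (2 : WithTop ℕ∞) ≤ ∞ := by
    have h3 : ((2 : ℕ∞) : WithTop ℕ∞) ≤ ((⊤ : ℕ∞) : WithTop ℕ∞) := WithTop.coe_le_coe.2 le_top
    exact h3
  have s1 : fderiv ℝ (fderiv ℝ f) x v u = fderiv ℝ (fderiv ℝ f) x u v :=
    (hf.contDiffAt.isSymmSndFDerivAt (by simpa using h2)).eq v u
  have s2 : fderiv ℝ (fderiv ℝ Q) x v u = fderiv ℝ (fderiv ℝ Q) x u v :=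
    (hQ.contDiffAt.isSymmSndFDerivAt (by simpa using h2)).eq v u
  have k1 := key u v
  have k2 := key v u
  rw [s1, s2] at k1
  unfold om
  have c1 : inner ℝ (fderiv ℝ f x v).2 (fderiv ℝ f x u).1 =
      inner ℝ (fderiv ℝ f x u).1 (fderiv ℝ f x v).2 := real_inner_comm _ _
  linarith

end

theorem hLGL (hPAR : StPAR) : StLGL := by
  intro k ζ S hL
  set Z := Function.uncurry ζ with hZ
  have hsm := io_smooth hPAR hL
  have hsm' := io_smooth' hPAR hL
  have hcc : ∀ t x, cc (io Z S t x) = hd x := fun t x => cc_pl _ _ _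
  have hzz : ∀ t x, zz (io Z S t x) = ζ (t, hd x) (lt x) := fun t x => zz_pl _ _ _
  refine ⟨io Z S, 2 * S + 1, hsm, hcc, hzz, ?_, ?_, ?_, ?_⟩
  · intro t
    refine isotropic_of_prim (Q := fun y => PP Z S (qq k (t, y))) (hsm' t) ?_ (form_eq hPAR hL t)
    exact (PP_smooth hPAR hL).comp ((qq k).contDiff.comp (contDiff_const.prodMk contDiff_id))
  · intro t x u hu
    have hio := ((hsm' t).differentiable (by simp) x).hasFDerivAt
    have h1 : HasFDerivAt (fun y => cc (io Z S t y)) (cc.comp (fderiv ℝ (io Z S t) x)) x :=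
      cc.hasFDerivAt.comp x hio
    have h2 : (fun y => cc (io Z S t y)) = fun y => hd y := funext fun y => hcc t y
    rw [h2] at h1
    have h3 := congrArg (fun A => A u) (h1.unique hd.hasFDerivAt)
    simp only [ContinuousLinearMap.comp_apply, hu, map_zero] at h3
    have g1 : HasFDerivAt (fun y => zz (io Z S t y)) (zz.comp (fderiv ℝ (io Z S t) x)) x :=
      zz.hasFDerivAt.comp x hio
    have g2 : (fun y => zz (io Z S t y)) = fun y => Z (qq k (t, y)) := funext fun y => hzz t y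
    rw [g2] at g1
    have g0 : HasFDerivAt Z (fderiv ℝ Z (qq k (t, x))) (qq k (t, x)) :=
      (hL.smooth.differentiable (by simp) (qq k (t, x))).hasFDerivAt
    have g3 : HasFDerivAt (fun y => Z (qq k (t, y)))
      ((fderiv ℝ Z (qq k (t, x))).comp ((qq k).comp (ContinuousLinearMap.inr ℝ ℝ (EE (k + 1))))) x :=
      HasFDerivAt.comp (g := Z) (f := fun y : EE (k + 1) => qq k (t, y)) x g0 (q_deriv k t x)
    have g4 := congrArg (fun A => A u) (g1.unique g3)
    simp only [ContinuousLinearMap.comp_apply, hu, map_zero] at g4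
    have g5 : (qq k) ((ContinuousLinearMap.inr ℝ ℝ (EE (k + 1))) u) =
        (lt u) • ((0, 1) : QQ k) := by
      have : (qq k) ((ContinuousLinearMap.inr ℝ ℝ (EE (k + 1))) u) = ((0, hd u), lt u) := rfl
      rw [this, ← h3]
      simp
    rw [g5, map_smul] at g4
    have g6 : fderiv ℝ Z (qq k (t, x)) (0, 1) ≠ 0 := by
      have := hL.ne (t, hd x) (lt x)
      rwa [deriv_eq hL] at this
    have g7 : lt u = 0 := by
      rcases smul_eq_zero.1 g4.symm with h | h
      · exact h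
      · exact absurd h g6
    exact ext_hd_lt (by rw [← h3, map_zero]) (by rw [g7, map_zero])
  · intro t x x' hxx
    have h1 : hd x = hd x' := by rw [← hcc t x, ← hcc t x', hxx]
    have h2 : ζ (t, hd x) (lt x) = ζ (t, hd x') (lt x') := by rw [← hzz t x, ← hzz t x', hxx]
    rw [← h1] at h2
    exact ext_hd_lt h1 (hL.inj _ h2)
  · intro t x hx
    have hS := hL.pos
    have h0 := norm_le_add x
    have h1 : S < ‖(t, hd x)‖ ∨ S < |lt x| := by
      by_contra hcon
      push Not at hcon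
      have h2 : ‖hd x‖ ≤ ‖(t, hd x)‖ := norm_snd_le (t, hd x)
      linarith [hcon.1, hcon.2]
    have h3 : hh Z S (qq k (t, x)) = 0 := hh_far hL h1
    have h4 : Z (qq k (t, x)) = (lt x : ℂ) := Z_far hL (h1.imp le_of_lt le_of_lt)
    show pl (hd x) (hh Z S (qq k (t, x))) (Z (qq k (t, x))) = (x, 0)
    rw [h3, h4, pl_std, mk_hd_lt]

end Pool.Agent.Helper67.LE
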